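import Pool.Agent.TH227.CM.Cpt

/-!
Compactly supported diffeomorphisms of a coded manifold, embeddings, and the equivalence of
embeddings under compactly supported diffeomorphisms of the target.
-/

open Set Filter Topology
open scoped ContDiff

namespace Pool.Agent.TH227.CM

variable {E : Type} [NormedAddCommGroup E] [NormedSpace ℝ E] [FiniteDimensional ℝ E]

local instance : CompleteSpace E := by
  have : ProperSpace E := FiniteDimensional.proper_real E
  infer_instance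

/-- Diffeomorphisms of the manifold coded by `c` which are the identity off `K c t`. -/
structure Dc (c : Code E) (t : List (ℕ × ℕ × ℕ)) (h : Pt E → Pt E) : Prop where
  bij : BijOn h (M c) (M c)
  ld : ∀ z ∈ M c, LD c c h z
  val : valid c t
  supp : ∀ z ∈ M c, z ∉ K c t → h z = z

variable {c d b : Code E} {t t' s : List (ℕ × ℕ × ℕ)} {h h' e e' : Pt E → Pt E}

theorem Dc.id' : Dc c [] id :=
  ⟨bijOn_id _, fun _ hz => LD_id hz, by simp [valid], fun _ _ _ => rfl⟩

theorem Dc.mapsTo (hd : Dc c t h) {z : Pt E} (hz : z ∈ K c t) : h z ∈ K c t := by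
  by_contra hn
  have h1 := K_sub_M hd.val hz
  have h2 := hd.bij.mapsTo h1
  have h3 := hd.supp _ h2 hn
  have h4 := hd.bij.injOn h2 h1 h3
  rw [h4] at hn
  exact hn hz

theorem Dc.comp (hd : Dc c t h) (hd' : Dc c t' h') : Dc c (t' ++ t) (h ∘ h') := by
  refine ⟨hd.bij.comp hd'.bij, ?_, valid_append hd'.val hd.val, ?_⟩
  · intro z hz
    exact (hd.ld _ (hd'.bij.mapsTo hz)).comp (hd'.ld z hz)
  · intro z hz hn
    rw [K_append] at hn
    have h1 : z ∉ K c t' := fun h => hn (Or.inl h)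
    have h2 : z ∉ K c t := fun h => hn (Or.inr h)
    show h (h' z) = z
    rw [hd'.supp z hz h1, hd.supp z hz h2]

theorem Dc.inverse (hd : Dc c t h) :
    ∃ g, Dc c t g ∧ (∀ z ∈ M c, g (h z) = z) ∧ ∀ z ∈ M c, h (g z) = z := by
  have hne : Nonempty (Pt E) := ⟨∅⟩
  have h1 : InvOn (Function.invFunOn h (M c)) h (M c) (M c) := hd.bij.invOn_invFunOn
  refine ⟨Function.invFunOn h (M c), ⟨hd.bij.symm h1.symm, ?_, hd.val, ?_⟩, h1.1, h1.2⟩
  · intro z hz
    obtain ⟨w, hw, rfl⟩ := hd.bij.surjOn hz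
    refine (hd.ld w hw).inverse ?_
    filter_upwards [nh_M hw] with w' hw'
    exact h1.1 hw'
  · intro z hz hn
    have h2 := hd.supp z hz hn
    have h3 := h1.1 hz
    rw [h2] at h3
    exact h3

open Classical in
/-- Conjugation of a map supported in `K d t` by an embedding. -/
noncomputable def conj (e : Pt E → Pt E) (S : Set (Pt E)) (h : Pt E → Pt E) (w : Pt E) : Pt E :=
  if w ∈ e '' S then e (h (Function.invFunOn e S w)) else w

omit [NormedAddCommGroup E] [NormedSpace ℝ E] [FiniteDimensional ℝ E] in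
theorem conj_img {S : Set (Pt E)} (he : InjOn e S) {z : Pt E} (hz : z ∈ S) :
    conj e S h (e z) = e (h z) := by
  unfold conj
  rw [if_pos ⟨z, hz, rfl⟩, he.leftInvOn_invFunOn hz]

omit [NormedAddCommGroup E] [NormedSpace ℝ E] [FiniteDimensional ℝ E] in
theorem conj_off {S : Set (Pt E)} {w : Pt E} (hw : w ∉ e '' S) : conj e S h w = w := by
  unfold conj
  rw [if_neg hw]

theorem Dc.conj {O : Set (Pt E)} (hO : ∀ z ∈ K d t, O ∈ nh d z) (hinj : InjOn e O)
    (hLD : ∀ z ∈ O, LD d c e z) (hd : Dc d t h) :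
    ∃ h' t', Dc c t' h' ∧ ∀ z ∈ O, h' (e z) = e (h z) := by
  have hne : Nonempty (Pt E) := ⟨∅⟩
  have hKO : K d t ⊆ O := fun z hz => nh_self (K_sub_M hd.val hz) (P := fun z => z ∈ O) (hO z hz)
  have hinjK : InjOn e (K d t) := hinj.mono hKO
  obtain ⟨g, hg, hgh, hhg⟩ := hd.inverse
  have key : ∀ f : Pt E → Pt E, Dc d t f → ∀ z ∈ O, CM.conj e (K d t) f (e z) = e (f z) := by
    intro f hf z hz
    by_cases hzK : z ∈ K d t
    · exact conj_img hinjK hzK
    · rw [hf.supp z (hLD z hz).1 hzK]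
      apply conj_off
      rintro ⟨z', hz', h1⟩
      rw [hinj (hKO hz') hz h1] at hz'
      exact hzK hz'
  have inv : ∀ f g : Pt E → Pt E, Dc d t f → Dc d t g → (∀ z ∈ M d, g (f z) = z) →
      ∀ w, CM.conj e (K d t) g (CM.conj e (K d t) f w) = w := by
    intro f g hf hg hfg w
    by_cases hw : w ∈ e '' K d t
    · obtain ⟨z, hz, rfl⟩ := hw
      rw [conj_img hinjK hz, conj_img hinjK (hf.mapsTo hz), hfg z (K_sub_M hd.val hz)]
    · rw [conj_off hw, conj_off hw]
  have maps : ∀ f : Pt E → Pt E, Dc d t f → MapsTo (CM.conj e (K d t) f) (M c) (M c) := by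
    intro f hf w hw
    by_cases hw' : w ∈ e '' K d t
    · obtain ⟨z, hz, rfl⟩ := hw'
      rw [conj_img hinjK hz]
      exact (hLD _ (hKO (hf.mapsTo hz))).mem_tgt
    · rw [conj_off hw']
      exact hw
  obtain ⟨t', ht', hcov, _⟩ := image_cover (W := univ) hd.val
    (fun z hz => (hLD z (hKO hz)).tendsto) (fun z hz => (hLD z (hKO hz)).mem_tgt)
    (fun z _ => Filter.univ_mem)
  refine ⟨CM.conj e (K d t) h, t', ⟨?_, ?_, ht', ?_⟩, key h hd⟩
  · refine InvOn.bijOn (f' := CM.conj e (K d t) g) ⟨?_, ?_⟩ (maps h hd) (maps g hg)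
    · intro w _
      exact inv h g hd hg hgh w
    · intro w _
      exact inv g h hg hd hhg w
  · intro w hw
    by_cases hw' : w ∈ e '' K d t
    · obtain ⟨z, hz, rfl⟩ := hw'
      have hzO := hKO hz
      have hl : ∀ᶠ z' in nh d z, Function.invFunOn e O (e z') = z' := by
        filter_upwards [hO z hz] with z' hz'
        exact hinj.leftInvOn_invFunOn hz'
      have h1 : LD c d (Function.invFunOn e O) (e z) := (hLD z hzO).inverse hl
      have h1z : Function.invFunOn e O (e z) = z := nh_self (hLD z hzO).1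
        (P := fun z' => Function.invFunOn e O (e z') = z') hl
      have h2 : LD d d h (Function.invFunOn e O (e z)) := by
        rw [h1z]
        exact hd.ld z (hLD z hzO).1
      have h3 : LD d c e (h (Function.invFunOn e O (e z))) := by
        rw [h1z]
        exact hLD _ (hKO (hd.mapsTo hz))
      have h4 : LD d c (e ∘ h) (Function.invFunOn e O (e z)) := h3.comp h2
      refine (h4.comp h1).congr ?_
      rw [← (hLD z hzO).map_nh, eventually_map]
      filter_upwards [hO z hz] with z' hz'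
      show e (h (Function.invFunOn e O (e z'))) = _
      rw [hinj.leftInvOn_invFunOn hz', key h hd z' hz']
    · refine (LD_id hw).congr ?_
      filter_upwards [image_closed hd.val (fun z hz => (hLD z (hKO hz)).tendsto)
        (fun z hz => (hLD z (hKO hz)).mem_tgt) hw hw'] with w' hw''
      exact (conj_off hw'').symm
  · intro w hw hn
    apply conj_off
    rintro ⟨z, hz, rfl⟩
    exact hn (nh_self (hLD z (hKO hz)).mem_tgt (P := fun w => w ∈ K c t') (hcov z hz))

/-- `e` is an embedding of a neighbourhood of `K d s` into the manifold coded by `c`. -/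
def Emb (d : Code E) (s : List (ℕ × ℕ × ℕ)) (c : Code E) (e : Pt E → Pt E) : Prop :=
  ∃ O : Set (Pt E), (∀ z ∈ K d s, O ∈ nh d z) ∧ InjOn e O ∧ ∀ z ∈ O, LD d c e z

/-- Two maps agree near `K d s`. -/
def EqNear (d : Code E) (s : List (ℕ × ℕ × ℕ)) (e e' : Pt E → Pt E) : Prop :=
  ∀ z ∈ K d s, ∀ᶠ z' in nh d z, e z' = e' z'

/-- Equivalence under compactly supported diffeomorphisms of the target. -/
def sim (d : Code E) (s : List (ℕ × ℕ × ℕ)) (c : Code E) (e e' : Pt E → Pt E) : Prop :=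
  ∃ t h, Dc c t h ∧ EqNear d s (h ∘ e) e'

theorem sim_of_eq (h : EqNear d s e e') : sim d s c e e' := ⟨[], id, Dc.id', h⟩

theorem sim.refl (e : Pt E → Pt E) : sim d s c e e :=
  sim_of_eq fun _ _ => Filter.Eventually.of_forall fun _ => rfl

theorem Emb.ev_M (he : Emb d s c e) {z : Pt E} (hz : z ∈ K d s) : ∀ᶠ z' in nh d z, e z' ∈ M c := by
  obtain ⟨O, hO, _, hLD⟩ := he
  filter_upwards [hO z hz] with z' hz'
  exact (hLD z' hz').mem_tgt

theorem sim.symm (he : Emb d s c e) (h : sim d s c e e') : sim d s c e' e := by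
  obtain ⟨t, h, hd, hh⟩ := h
  obtain ⟨g, hg, hgh, hhg⟩ := hd.inverse
  refine ⟨t, g, hg, ?_⟩
  intro z hz
  filter_upwards [hh z hz, he.ev_M hz] with z' h1 h2
  show g (e' z') = e z'
  rw [← h1]
  exact hgh _ h2

theorem sim.trans {e'' : Pt E → Pt E} (h1 : sim d s c e e') (h2 : sim d s c e' e'') :
    sim d s c e e'' := by
  obtain ⟨t, h, hd, hh⟩ := h1
  obtain ⟨t', h', hd', hh'⟩ := h2
  refine ⟨_, _, hd'.comp hd, ?_⟩
  intro z hz
  filter_upwards [hh z hz, hh' z hz] with z' a1 a2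
  show h' (h (e z')) = e'' z'
  have a1' : h (e z') = e' z' := a1
  rw [a1']
  exact a2

theorem Emb.congr (hs : valid d s) (he : Emb d s c e) (h : EqNear d s e e') : Emb d s c e' := by
  obtain ⟨O, hO, hinj, hLD⟩ := he
  refine ⟨{z | z ∈ O ∧ ∀ᶠ z' in nh d z, e z' = e' z'}, ?_, ?_, ?_⟩
  · intro z hz
    have h1 : ∀ᶠ z' in nh d z, ∀ᶠ z'' in nh d z', e z'' = e' z'' :=
      nh_ev (K_sub_M hs hz) (h z hz)
    filter_upwards [hO z hz, h1] with z' a b
    exact ⟨a, b⟩
  · rintro z ⟨hz, hz1⟩ z' ⟨hz', hz1'⟩ h2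
    have e1 := nh_self (hLD z hz).1 hz1
    have e2 := nh_self (hLD z' hz').1 hz1'
    rw [← e1, ← e2] at h2
    exact hinj hz hz' h2
  · rintro z ⟨hz, hz1⟩
    exact (hLD z hz).congr hz1

theorem Emb.sub (he : Emb d s c e) (hh : Dc c t h) : Emb d s c (h ∘ e) := by
  obtain ⟨O, hO, hinj, hLD⟩ := he
  refine ⟨O, hO, ?_, ?_⟩
  · intro z hz z' hz' h1
    exact hinj hz hz' (hh.bij.injOn (hLD z hz).mem_tgt (hLD z' hz').mem_tgt h1)
  · intro z hz
    exact (hh.ld _ (hLD z hz).mem_tgt).comp (hLD z hz)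

/-- Composition of embeddings. -/
theorem Emb.comp {f : Pt E → Pt E} (he : Emb d s c e) (hf : Emb b t' d f)
    (hm : ∀ z ∈ K b t', f z ∈ K d s) (ht' : valid b t') : Emb b t' c (e ∘ f) := by
  obtain ⟨O, hO, hinj, hLD⟩ := he
  obtain ⟨O', hO', hinj', hLD'⟩ := hf
  refine ⟨O' ∩ f ⁻¹' O, ?_, ?_, ?_⟩
  · intro z hz
    have hzO : z ∈ O' := nh_self (K_sub_M ht' hz) (P := fun z => z ∈ O') (hO' z hz)
    have h1 : f ⁻¹' O ∈ nh b z := (hLD' z hzO).tendsto (hO _ (hm z hz))
    exact Filter.inter_mem (hO' z hz) h1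
  · rintro z ⟨hz, hz1⟩ z' ⟨hz', hz1'⟩ h2
    exact hinj' hz hz' (hinj hz1 hz1' h2)
  · rintro z ⟨hz, hz1⟩
    exact (hLD _ hz1).comp (hLD' z hz)

theorem sim.pre {f : Pt E → Pt E} (h : sim d s c e e') (hf : Emb b t' d f)
    (hm : ∀ z ∈ K b t', f z ∈ K d s) (ht' : valid b t') : sim b t' c (e ∘ f) (e' ∘ f) := by
  obtain ⟨t, h, hd, hh⟩ := h
  obtain ⟨O', hO', hinj', hLD'⟩ := hf
  refine ⟨t, h, hd, ?_⟩
  intro z hz
  have hzO : z ∈ O' := nh_self (K_sub_M ht' hz) (P := fun z => z ∈ O') (hO' z hz)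
  exact (hLD' z hzO).tendsto.eventually (hh _ (hm z hz))

/-- Postcomposition with an embedding. -/
theorem sim_post {f f' : Pt E → Pt E} {O : Set (Pt E)} (hinj : InjOn e O)
    (hLD : ∀ z ∈ O, LD d c e z) (hd : Dc d t h) (hO : ∀ z ∈ K d t, O ∈ nh d z)
    (hf : ∀ z ∈ K b t', ∀ᶠ z' in nh b z, f z' ∈ O) (hh : EqNear b t' (h ∘ f) f') :
    sim b t' c (e ∘ f) (e ∘ f') := by
  obtain ⟨h', t'', hd', hconj⟩ := Dc.conj hO hinj hLD hd
  refine ⟨t'', h', hd', ?_⟩
  intro z hz
  filter_upwards [hf z hz, hh z hz] with z' a1 a2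
  show h' (e (f z')) = e (f' z')
  rw [hconj _ a1]
  have a2' : h (f z') = f' z' := a2
  rw [a2']

end Pool.Agent.TH227.CM
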