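import Pool.Agent.TH227.CM.Meas

/-!
Classification by countable structures in a countable first-order language.
-/

open Set Filter Topology
open scoped ContDiff Manifold MeasureTheory

namespace Pool.Agent.TH227.CM

/-- The Borel structure of the Polish space of `L`-structures with universe `ℕ`: it is generated by
the sets of structures in which a given atomic relation between given natural numbers holds, or in
which a given function symbol has a given value at given natural numbers. -/
@[instance_reducible]
def structBorel (L : FirstOrder.Language.{0, 0}) : MeasurableSpace (L.Structure ℕ) :=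
  MeasurableSpace.generateFrom
    ({A | ∃ (k : ℕ) (r : L.Relations k) (v : Fin k → ℕ), A = {S : L.Structure ℕ | S.RelMap r v}} ∪
     {A | ∃ (k : ℕ) (f : L.Functions k) (v : Fin k → ℕ) (m : ℕ),
        A = {S : L.Structure ℕ | S.funMap f v = m}})

/-- The relation `R` on `X` is classifiable by countable structures: for some countable first-order
language `L` there is a Borel map `F` from `X` to the space of `L`-structures with universe `ℕ` such
that `R x y` holds iff `F x` and `F y` are isomorphic. -/
def ClassifiableByCountableStructures {X : Type} [MeasurableSpace X] (R : X → X → Prop) : Prop :=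
  ∃ (L : FirstOrder.Language.{0, 0}) (_ : Countable L.Symbols) (F : X → L.Structure ℕ),
    Measurable[_, structBorel L] F ∧
      ∀ x y, R x y ↔ Nonempty (@FirstOrder.Language.Equiv L ℕ ℕ (F x) (F y))

/-- Binary relation symbols indexed by `Sym`. -/
inductive RelSym : ℕ → Type
  | bin : Sym → RelSym 2

/-- The language with the binary relation symbols indexed by `Sym`. -/
def LL : FirstOrder.Language.{0, 0} := ⟨fun _ => Empty, RelSym⟩

instance : Countable LL.Symbols := by
  have h1 : Countable (Σ l, LL.Functions l) := by
    have : IsEmpty (Σ l, LL.Functions l) := ⟨fun x => x.2.elim⟩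
    infer_instance
  have h2 : Countable (Σ l, LL.Relations l) := by
    let f : (Σ l, LL.Relations l) → Sym := fun x => match x with
      | ⟨_, RelSym.bin S⟩ => S
    have hf : Function.Injective f := by
      rintro ⟨_, ⟨S⟩⟩ ⟨_, ⟨S'⟩⟩ h
      have h' : S = S' := h
      rw [h']
    exact hf.countable
  show Countable ((Σ l, LL.Functions l) ⊕ (Σ l, LL.Relations l))
  infer_instance

/-- The interpretation of the relation symbols. -/
def relOf (R : Sym → ℕ → ℕ → Prop) : {n : ℕ} → RelSym n → (Fin n → ℕ) → Prop
  | _, RelSym.bin S, v => R S (v 0) (v 1)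

/-- The structure given by a family of binary relations. -/
@[instance_reducible]
def strOf (R : Sym → ℕ → ℕ → Prop) : LL.Structure ℕ where
  funMap := fun f _ => Empty.elim f
  RelMap := fun r v => relOf R r v

theorem equiv_iff (R R' : Sym → ℕ → ℕ → Prop) :
    Nonempty (@FirstOrder.Language.Equiv LL ℕ ℕ (strOf R) (strOf R')) ↔
      ∃ σ : ℕ ≃ ℕ, ∀ S a b, R S a b ↔ R' S (σ a) (σ b) := by
  constructor
  · rintro ⟨f⟩
    refine ⟨@FirstOrder.Language.Equiv.toEquiv LL ℕ ℕ (strOf R) (strOf R') f, ?_⟩
    intro S a b
    have h := @FirstOrder.Language.Equiv.map_rel' LL ℕ ℕ (strOf R) (strOf R') f 2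
      (RelSym.bin S : LL.Relations 2) (![a, b])
    exact h.symm
  · rintro ⟨σ, hσ⟩
    refine ⟨@FirstOrder.Language.Equiv.mk LL ℕ ℕ (strOf R) (strOf R') σ ?_ ?_⟩
    · intro n f
      exact Empty.elim f
    · intro n r v
      cases r with
      | bin S => exact (hσ S (v 0) (v 1)).symm

variable {E : Type} [NormedAddCommGroup E] [NormedSpace ℝ E] [FiniteDimensional ℝ E]

/-- The main classification theorem, for all (not necessarily connected) coded manifolds. -/
theorem classifiable_all :
    ClassifiableByCountableStructures (fun c c' : Code E =>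
      Nonempty (Diffeomorph 𝓘(ℝ, E) 𝓘(ℝ, E) c.Pts c'.Pts ∞)) := by
  obtain ⟨en⟩ : Nonempty (ℕ ≃ Nm) := nonempty_equiv_of_countable
  refine ⟨LL, inferInstance, fun c => strOf (fun S a b => RR c S (en a) (en b)), ?_, ?_⟩
  · refine measurable_generateFrom ?_
    rintro A (⟨k, r, v, rfl⟩ | ⟨k, f, v, m, rfl⟩)
    · cases r with
      | bin S => exact RR_meas S (en (v 0)) (en (v 1))
    · exact Empty.elim f
  · intro c c'
    rw [equiv_iff]
    show Nonempty (Diffeomorph 𝓘(ℝ, E) 𝓘(ℝ, E) c.Pts c'.Pts ∞) ↔ _
    rw [← iso_iff_diffeomorph, iso_iff]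
    constructor
    · rintro ⟨σ, hσ⟩
      refine ⟨(en.trans σ).trans en.symm, ?_⟩
      intro S a b
      show RR c S (en a) (en b) ↔ RR c' S (en (en.symm (σ (en a)))) (en (en.symm (σ (en b))))
      rw [en.apply_symm_apply, en.apply_symm_apply]
      exact hσ S (en a) (en b)
    · rintro ⟨σ, hσ⟩
      refine ⟨(en.symm.trans σ).trans en, ?_⟩
      intro S a b
      have h := hσ S (en.symm a) (en.symm b)
      have h' : RR c S (en (en.symm a)) (en (en.symm b)) ↔
        RR c' S (en (σ (en.symm a))) (en (σ (en.symm b))) := h
      rw [en.apply_symm_apply, en.apply_symm_apply] at h'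
      exact h'

/-- Restriction to a subset. -/
theorem ClassifiableByCountableStructures.subtype {X : Type} [MeasurableSpace X]
    {R : X → X → Prop} (h : ClassifiableByCountableStructures R) (p : X → Prop) :
    ClassifiableByCountableStructures (fun x y : {x // p x} => R x.1 y.1) := by
  obtain ⟨L, hL, F, hF, hR⟩ := h
  exact ⟨L, hL, fun x => F x.1, hF.comp measurable_subtype_coe, fun x y => hR x.1 y.1⟩

end Pool.Agent.TH227.CM
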