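import Pool.Agent.TH227.CM.Classify

/-!
The manifold coded by a code, as a smooth manifold in the sense of Mathlib, and the comparison of
the two notions of diffeomorphism.
-/

open Set Filter Topology
open scoped ContDiff Manifold

namespace Pool.Agent.TH227.CM

variable {E : Type} [NormedAddCommGroup E] [NormedSpace ℝ E]

/-- The set of points of the coded manifold, as a type. -/
@[ext]
structure Code.Pts (c : Code E) : Type where
  val : Pt E
  mem : val ∈ M c

/-- The point with coordinate `x` in the chart `i`. -/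
def Code.mk' (c : Code E) (i : ℕ) (x : c.V i i) : c.Pts := ⟨cls c i x, cls_mem_M x.2⟩

/-- The gluing topology. -/
instance Code.topPts (c : Code E) : TopologicalSpace c.Pts :=
  ⨆ i, TopologicalSpace.coinduced (c.mk' i) inferInstance

theorem Code.isOpen_iff (c : Code E) {U : Set c.Pts} :
    IsOpen U ↔ ∀ i, IsOpen {x : E | ∃ h : x ∈ c.V i i, c.mk' i ⟨x, h⟩ ∈ U} := by
  have h1 : IsOpen U ↔ ∀ i, IsOpen (c.mk' i ⁻¹' U) := by
    show IsOpen[⨆ i, TopologicalSpace.coinduced (c.mk' i) inferInstance] U ↔ _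
    rw [isOpen_iSup_iff]
    exact forall_congr' fun i => isOpen_coinduced
  rw [h1]
  refine forall_congr' fun i => ?_
  rw [(c.isOpen i i).isOpenEmbedding_subtypeVal.isOpen_iff_image_isOpen]
  have h2 : Subtype.val '' (c.mk' i ⁻¹' U) = {x : E | ∃ h : x ∈ c.V i i, c.mk' i ⟨x, h⟩ ∈ U} := by
    ext x
    constructor
    · rintro ⟨⟨y, hy⟩, h, rfl⟩
      exact ⟨hy, h⟩
    · rintro ⟨h, hx⟩
      exact ⟨⟨x, h⟩, hx, rfl⟩
  rw [h2]

theorem Code.continuous_mk' (c : Code E) (i : ℕ) : Continuous (c.mk' i) := by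
  rw [continuous_iff_coinduced_le]
  exact le_iSup (fun i => TopologicalSpace.coinduced (c.mk' i) inferInstance) i

/-- The points of the chart `i` with coordinates in the open set `A`. -/
theorem Code.isOpen_chart (c : Code E) (i : ℕ) {A : Set E} (hA : IsOpen A) :
    IsOpen {z : c.Pts | ∃ y ∈ A, (i, y) ∈ z.1} := by
  rw [c.isOpen_iff]
  intro j
  have h1 : {x : E | ∃ h : x ∈ c.V j j, c.mk' j ⟨x, h⟩ ∈ {z : c.Pts | ∃ y ∈ A, (i, y) ∈ z.1}} =
      c.V j i ∩ c.φ j i ⁻¹' A := by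
    ext x
    constructor
    · rintro ⟨h, y, hy, h2, h3⟩
      refine ⟨h2, ?_⟩
      have h3' : c.φ j i x = y := h3
      show c.φ j i x ∈ A
      rw [h3']
      exact hy
    · rintro ⟨h2, h3⟩
      exact ⟨c.sub j i h2, c.φ j i x, h3, h2, rfl⟩
  rw [h1]
  exact (c.smooth j i).continuousOn.isOpen_inter_preimage (c.isOpen j i) hA

open Classical in
/-- The chart `i`. The point `z₀` is only used to extend the inverse by a junk value. -/
noncomputable def Code.chart (c : Code E) (i : ℕ) (z₀ : c.Pts) : OpenPartialHomeomorph c.Pts E where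
  toFun z := coord i z.1
  invFun x := if h : x ∈ c.V i i then c.mk' i ⟨x, h⟩ else z₀
  source := {z | ∃ y ∈ (univ : Set E), (i, y) ∈ z.1}
  target := c.V i i
  map_source' := by
    rintro z ⟨y, _, hy⟩
    exact (coord_mem z.2 ⟨y, hy⟩).1
  map_target' := by
    intro x hx
    rw [dif_pos hx]
    exact ⟨x, mem_univ _, mem_cls_self hx⟩
  left_inv' := by
    rintro z ⟨y, _, hy⟩
    have h1 := coord_mem z.2 ⟨y, hy⟩
    rw [dif_pos h1.1]
    apply Code.Pts.ext
    exact h1.2.symm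
  right_inv' := by
    intro x hx
    rw [dif_pos hx]
    exact coord_cls hx
  open_source := c.isOpen_chart i isOpen_univ
  open_target := c.isOpen i i
  continuousOn_toFun := by
    rw [continuousOn_open_iff (c.isOpen_chart i isOpen_univ)]
    intro A hA
    have h1 := c.isOpen_chart i hA
    convert h1 using 1
    ext z
    constructor
    · rintro ⟨⟨y, _, hy⟩, hz⟩
      have h2 := coord_mem z.2 ⟨y, hy⟩
      refine ⟨coord i z.1, hz, ?_⟩
      have h3 := mem_cls_self h2.1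
      rw [← h2.2] at h3
      exact h3
    · rintro ⟨y, hy, hyz⟩
      refine ⟨⟨y, mem_univ _, hyz⟩, ?_⟩
      have h2 := (mem_iff z.2 (i, y)).1 hyz
      show coord i z.1 ∈ A
      rw [h2.2, coord_cls h2.1]
      exact hy
  continuousOn_invFun := by
    rw [continuousOn_iff_continuous_domRestrict]
    refine (c.continuous_mk' i).congr ?_
    rintro ⟨x, hx⟩
    show c.mk' i ⟨x, hx⟩ = (if h : x ∈ c.V i i then c.mk' i ⟨x, h⟩ else z₀)
    rw [dif_pos hx]

theorem Code.chart_apply (c : Code E) (i : ℕ) (z₀ z : c.Pts) : c.chart i z₀ z = coord i z.1 := rfl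

open Classical in
theorem Code.chart_symm (c : Code E) {i : ℕ} {z₀ : c.Pts} {x : E} (hx : x ∈ c.V i i) :
    (c.chart i z₀).symm x = c.mk' i ⟨x, hx⟩ := by
  show (if h : x ∈ c.V i i then c.mk' i ⟨x, h⟩ else z₀) = _
  rw [dif_pos hx]

theorem Code.mem_chart (c : Code E) {i : ℕ} {z₀ z : c.Pts} :
    z ∈ (c.chart i z₀).source ↔ ∃ y, (i, y) ∈ z.1 := by
  constructor
  · rintro ⟨y, _, hy⟩
    exact ⟨y, hy⟩
  · rintro ⟨y, hy⟩
    exact ⟨y, mem_univ _, hy⟩

theorem Code.exists_idx (c : Code E) (z : c.Pts) : ∃ i y, (i, y) ∈ z.1 := by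
  obtain ⟨q, hq⟩ := exists_mem z.2
  exact ⟨q.1, q.2, hq⟩

/-- The smooth atlas of the coded manifold. -/
noncomputable instance Code.chartedPts (c : Code E) : ChartedSpace E c.Pts where
  atlas := {e | ∃ i z₀, e = c.chart i z₀}
  chartAt z := c.chart (c.exists_idx z).choose z
  mem_chart_source _ := c.mem_chart.2 (c.exists_idx _).choose_spec
  chart_mem_atlas _ := ⟨_, _, rfl⟩

instance Code.manifoldPts (c : Code E) : IsManifold 𝓘(ℝ, E) ∞ c.Pts := by
  refine isManifold_of_contDiffOn 𝓘(ℝ, E) ∞ c.Pts ?_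
  rintro e e' ⟨i, z₀, rfl⟩ ⟨j, z₁, rfl⟩
  have h1 : ∀ x ∈ ((c.chart i z₀).symm ≫ₕ c.chart j z₁).source, x ∈ c.V i j := by
    intro x hx
    rw [OpenPartialHomeomorph.trans_source] at hx
    obtain ⟨hx1, hx2⟩ := hx
    have hx1' : x ∈ c.V i i := hx1
    have hx2' : (c.chart i z₀).symm x ∈ (c.chart j z₁).source := hx2
    rw [c.chart_symm hx1', c.mem_chart] at hx2'
    obtain ⟨y, hy⟩ := hx2'
    exact hy.1
  have h2 : ContDiffOn ℝ ∞ (c.φ i j) (𝓘(ℝ, E).symm ⁻¹'
      ((c.chart i z₀).symm ≫ₕ c.chart j z₁).source ∩ range 𝓘(ℝ, E)) :=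
    (c.smooth i j).mono (fun x hx => h1 x hx.1)
  refine h2.congr ?_
  rintro x ⟨hx, _⟩
  have hx' : x ∈ c.V i j := h1 x hx
  show coord j ((c.chart i z₀).symm x).1 = c.φ i j x
  rw [c.chart_symm (c.sub i j hx')]
  show coord j (cls c i x) = _
  rw [cls_φ hx', coord_cls (c.φ_mem hx')]

instance Code.t2Pts (c : Code E) : T2Space c.Pts := by
  rw [t2_iff_nhds]
  intro z w hzw
  by_contra hne
  obtain ⟨i, x, hx⟩ := c.exists_idx z
  obtain ⟨j, y, hy⟩ := c.exists_idx w
  have hz := (mem_iff z.2 _).1 hx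
  have hw := (mem_iff w.2 _).1 hy
  have h1 : ¬ (x ∈ c.V i j ∧ c.φ i j x = y) := by
    intro h2
    apply hne
    apply Code.Pts.ext
    have h3 : cls c i x = cls c j y := (cls_eq_iff hw.1).2 h2
    exact hz.2.trans (h3.trans hw.2.symm)
  have h2 := c.haus i j x hz.1 y hw.1 h1
  rw [nhds_prod_eq, Filter.eventually_prod_iff] at h2
  obtain ⟨pa, ha, pb, hb, h2⟩ := h2
  obtain ⟨A, hA, hAo, hxA⟩ := mem_nhds_iff.1 (Filter.inter_mem ha ((c.isOpen i i).mem_nhds hz.1))
  obtain ⟨B, hB, hBo, hyB⟩ := mem_nhds_iff.1 (Filter.inter_mem hb ((c.isOpen j j).mem_nhds hw.1))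
  have hUA := (c.isOpen_chart i hAo).mem_nhds (show z ∈ {z : c.Pts | ∃ y ∈ A, (i, y) ∈ z.1} from
    ⟨x, hxA, hx⟩)
  have hUB := (c.isOpen_chart j hBo).mem_nhds (show w ∈ {z : c.Pts | ∃ y ∈ B, (j, y) ∈ z.1} from
    ⟨y, hyB, hy⟩)
  have h3 := Filter.inter_mem (Filter.mem_inf_of_left (g := 𝓝 w) hUA)
    (Filter.mem_inf_of_right (f := 𝓝 z) hUB)
  obtain ⟨v, ⟨a, ha', hva⟩, ⟨b, hb', hvb⟩⟩ := Filter.nonempty_of_mem h3
  have h4 := (mem_iff v.2 _).1 hva
  have h5 := (mem_iff v.2 _).1 hvb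
  have h6 : cls c i a = cls c j b := h4.2.symm.trans h5.2
  exact h2 (hA ha').1 (hB hb').1 ((cls_eq_iff h5.1).1 h6)

instance Code.sigmaPts (c : Code E) [FiniteDimensional ℝ E] : SecondCountableTopology c.Pts := by
  have : ProperSpace E := FiniteDimensional.proper_real E
  by_cases hne : Nonempty c.Pts
  · obtain ⟨z₀⟩ := hne
    have hs : ∀ i, IsOpen {z : c.Pts | ∃ y ∈ (univ : Set E), (i, y) ∈ z.1} :=
      fun i => c.isOpen_chart i isOpen_univ
    have h1 : ∀ i, SecondCountableTopology {z : c.Pts | ∃ y ∈ (univ : Set E), (i, y) ∈ z.1} := by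
      intro i
      exact (c.chart i z₀).secondCountableTopology_source
    refine TopologicalSpace.secondCountableTopology_of_countable_cover hs ?_
    ext z
    simp only [mem_iUnion, mem_univ, iff_true]
    obtain ⟨i, y, hy⟩ := c.exists_idx z
    exact ⟨i, y, trivial, hy⟩
  · have : IsEmpty c.Pts := not_nonempty_iff.1 hne
    infer_instance

theorem nhds_Pts (c : Code E) (z : c.Pts) : Filter.map Code.Pts.val (𝓝 z) = nh c z.1 := by
  obtain ⟨i, x, hx⟩ := c.exists_idx z
  have hz := (mem_iff z.2 _).1 hx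
  have hm : z ∈ (c.chart i z).source := c.mem_chart.2 ⟨x, hx⟩
  have h1 : c.chart i z z = x := by
    rw [c.chart_apply, hz.2]
    exact coord_cls hz.1
  have h2 : Filter.map (c.chart i z).symm (𝓝 x) = 𝓝 z := by
    have := (c.chart i z).symm_map_nhds_eq hm
    rwa [h1] at this
  rw [← h2, Filter.map_map, nh_eq z.2 hx]
  refine Filter.map_congr ?_
  filter_upwards [(c.isOpen i i).mem_nhds hz.1] with y hy
  show ((c.chart i z).symm y).1 = cls c i y
  rw [c.chart_symm hy]
  rfl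

/-- A local diffeomorphism at `z` is smooth at `z`. -/
theorem contMDiffAt_of_LD {c c' : Code E} {F : c.Pts → c'.Pts} {Φ : Pt E → Pt E}
    (hF : ∀ z, (F z).1 = Φ z.1) (z : c.Pts) (h : LD c c' Φ z.1) :
    ContMDiffAt 𝓘(ℝ, E) 𝓘(ℝ, E) ∞ F z := by
  have hcont : ContinuousAt F z := by
    have h1 : Tendsto (fun w : c.Pts => (F w).1) (𝓝 z) (nh c' (F z).1) := by
      have h2 : Tendsto (fun w : c.Pts => Φ w.1) (𝓝 z) (nh c' (Φ z.1)) := by
        have h3 : Tendsto (Code.Pts.val : c.Pts → Pt E) (𝓝 z) (nh c z.1) := by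
          rw [← nhds_Pts]
          exact tendsto_map
        exact h.tendsto.comp h3
      rw [← hF] at h2
      refine h2.congr ?_
      intro w
      exact (hF w).symm
    rw [← nhds_Pts] at h1
    intro U hU
    have h2 : Code.Pts.val '' U ∈ Filter.map Code.Pts.val (𝓝 (F z)) := Filter.image_mem_map hU
    have h3 : {w | (F w).val ∈ Code.Pts.val '' U} ∈ 𝓝 z := h1 h2
    show F ⁻¹' U ∈ 𝓝 z
    refine Filter.mem_of_superset h3 ?_
    rintro w ⟨u, hu, huw⟩
    have : u = F w := Code.Pts.ext huw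
    show F w ∈ U
    rw [← this]
    exact hu
  rw [contMDiffAt_iff]
  refine ⟨hcont, ?_⟩
  obtain ⟨y, hy⟩ : ∃ y, ((c.exists_idx z).choose, y) ∈ z.1 := (c.exists_idx z).choose_spec
  obtain ⟨y', hy'⟩ : ∃ y', ((c'.exists_idx (F z)).choose, y') ∈ (F z).1 :=
    (c'.exists_idx (F z)).choose_spec
  set i := (c.exists_idx z).choose with hi
  set i' := (c'.exists_idx (F z)).choose with hi'
  have hz := (mem_iff z.2 _).1 hy
  have h1 : LK c c' Φ (i, y) i' := by
    have h2 : ((i', y') : ℕ × E) ∈ Φ z.1 := by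
      rw [← hF]
      exact hy'
    exact h.at hy h2
  have hez : extChartAt 𝓘(ℝ, E) z z = y := by
    show coord i z.1 = y
    rw [hz.2]
    exact coord_cls hz.1
  rw [hez]
  have h3 : ContDiffWithinAt ℝ ∞ (rp Φ c i i') (range 𝓘(ℝ, E)) y := h1.sn.self.contDiffWithinAt
  refine h3.congr_of_eventuallyEq ?_ ?_
  · refine Filter.Eventually.filter_mono nhdsWithin_le_nhds ?_
    filter_upwards [(c.isOpen i i).mem_nhds hz.1] with x hx
    show coord i' (F ((c.chart i z).symm x)).1 = coord i' (Φ (cls c i x))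
    rw [hF, c.chart_symm hx]
    rfl
  · show coord i' (F ((c.chart i z).symm y)).1 = coord i' (Φ (cls c i y))
    rw [hF, c.chart_symm hz.1]
    rfl

open Classical in
/-- Extension of a map between the types of points. -/
noncomputable def extP {c c' : Code E} (F : c.Pts → c'.Pts) (z : Pt E) : Pt E :=
  if h : z ∈ M c then (F ⟨z, h⟩).1 else z

theorem extP_val {c c' : Code E} (F : c.Pts → c'.Pts) (z : c.Pts) : extP F z.1 = (F z).1 := by
  unfold extP
  rw [dif_pos z.2]

/-- Smooth maps in coordinates. -/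
theorem rp_smooth {c c' : Code E} {F : c.Pts → c'.Pts}
    (hF : ContMDiff 𝓘(ℝ, E) 𝓘(ℝ, E) ∞ F) (z : c.Pts) {y y' : E} {i i' : ℕ}
    (hi : i = (c.exists_idx z).choose) (hi' : i' = (c'.exists_idx (F z)).choose)
    (hy : (i, y) ∈ z.1) (hy' : (i', y') ∈ (F z).1) :
    (∀ᶠ x in 𝓝 y, extP F (cls c i x) = cls c' i' (rp (extP F) c i i' x) ∧
      rp (extP F) c i i' x ∈ c'.V i' i') ∧ SN (rp (extP F) c i i') y ∧
      rp (extP F) c i i' y = y' := by
  have hz := (mem_iff z.2 _).1 hy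
  have hcont : ContinuousAt F z := hF.continuous.continuousAt
  have hsrc' : F z ∈ (c'.chart i' (F z)).source := c'.mem_chart.2 ⟨y', hy'⟩
  have hev : ∀ᶠ w in 𝓝 z, F w ∈ (c'.chart i' (F z)).source :=
    hcont.eventually ((c'.chart i' (F z)).open_source.mem_nhds hsrc')
  have hm : z ∈ (c.chart i z).source := c.mem_chart.2 ⟨y, hy⟩
  have hzy : c.chart i z z = y := by
    rw [c.chart_apply, hz.2]
    exact coord_cls hz.1
  have hsy : Filter.map (c.chart i z).symm (𝓝 y) = 𝓝 z := by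
    have := (c.chart i z).symm_map_nhds_eq hm
    rwa [hzy] at this
  have hev2 : ∀ᶠ x in 𝓝 y, F ((c.chart i z).symm x) ∈ (c'.chart i' (F z)).source := by
    rw [← hsy, eventually_map] at hev
    exact hev
  have hext : ∀ x ∈ c.V i i, extP F (cls c i x) = (F ((c.chart i z).symm x)).1 := by
    intro x hx
    rw [c.chart_symm hx, ← extP_val]
    rfl
  have hrep : ∀ᶠ x in 𝓝 y, extP F (cls c i x) = cls c' i' (rp (extP F) c i i' x) ∧
      rp (extP F) c i i' x ∈ c'.V i' i' := by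
    filter_upwards [hev2, (c.isOpen i i).mem_nhds hz.1] with x a1 a2
    obtain ⟨w, hw⟩ := c'.mem_chart.1 a1
    have h1 := coord_mem (F ((c.chart i z).symm x)).2 ⟨w, hw⟩
    have h2 : rp (extP F) c i i' x = coord i' (F ((c.chart i z).symm x)).1 := by
      unfold rp
      rw [hext x a2]
    rw [h2, hext x a2]
    exact ⟨h1.2, h1.1⟩
  refine ⟨hrep, ?_, ?_⟩
  · have hz' : z ∈ (chartAt E z).source := mem_chart_source E z
    have hzF' : F z ∈ (chartAt E (F z)).source := mem_chart_source E (F z)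
    have hchart : chartAt E z = c.chart i z := by
      rw [hi]
      rfl
    have hchart' : chartAt E (F z) = c'.chart i' (F z) := by
      rw [hi']
      rfl
    have hev3 : ∀ᶠ x in 𝓝 y, x ∈ c.V i i ∧ F ((c.chart i z).symm x) ∈
        (c'.chart i' (F z)).source := by
      filter_upwards [hev2, (c.isOpen i i).mem_nhds hz.1] with x a1 a2
      exact ⟨a2, a1⟩
    filter_upwards [hev3, hev3.eventually_nhds] with x hx hxn
    obtain ⟨hx1, hx2⟩ := hx
    set w := (c.chart i z).symm x with hw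
    have hws : w ∈ (chartAt E z).source := by
      rw [hchart]
      exact (c.chart i z).map_target hx1
    have hFws : F w ∈ (chartAt E (F z)).source := by
      rw [hchart']
      exact hx2
    have h1 := (contMDiffAt_iff_of_mem_source hws hFws).1 (hF w)
    have h2 := h1.2
    have hwx : extChartAt 𝓘(ℝ, E) z w = x := by
      have : extChartAt 𝓘(ℝ, E) z w = chartAt E z w := rfl
      rw [this, hchart]
      exact (c.chart i z).right_inv hx1
    rw [hwx] at h2
    have h3 : ContDiffAt ℝ ∞ (extChartAt 𝓘(ℝ, E) (F z) ∘ F ∘ (extChartAt 𝓘(ℝ, E) z).symm) x := by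
      have h4 : range (𝓘(ℝ, E) : E → E) = univ := by simp
      rw [h4] at h2
      exact contDiffWithinAt_univ.1 h2
    refine h3.congr_of_eventuallyEq ?_
    filter_upwards [hxn] with v hv
    have e1 : (extChartAt 𝓘(ℝ, E) z).symm v = (c.chart i z).symm v := by
      have : (extChartAt 𝓘(ℝ, E) z).symm v = (chartAt E z).symm v := rfl
      rw [this, hchart]
    have e2 : ∀ u, extChartAt 𝓘(ℝ, E) (F z) u = coord i' u.1 := by
      intro u
      have : extChartAt 𝓘(ℝ, E) (F z) u = chartAt E (F z) u := rfl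
      rw [this, hchart']
      rfl
    show rp (extP F) c i i' v = extChartAt 𝓘(ℝ, E) (F z) (F ((extChartAt 𝓘(ℝ, E) z).symm v))
    rw [e2, e1]
    unfold rp
    rw [hext v hv.1]
  · have h1 := (mem_iff (F z).2 _).1 hy'
    refine rp_eq h1.1 ?_
    rw [← h1.2]
    have h2 : cls c i y = z.1 := hz.2.symm
    rw [h2, extP_val]

variable [FiniteDimensional ℝ E]

/-- The manifolds coded by `c` and `c'` are diffeomorphic iff they are so in the sense of
Mathlib. -/
theorem iso_iff_diffeomorph {c c' : Code E} :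
    Iso c c' ↔ Nonempty (Diffeomorph 𝓘(ℝ, E) 𝓘(ℝ, E) c.Pts c'.Pts ∞) := by
  constructor
  · rintro ⟨Φ, hΦ, hLD⟩
    obtain ⟨Ψ, hΨ, hLD', hΨΦ, hΦΨ⟩ := Iso.symm' hΦ hLD
    set F : c.Pts → c'.Pts := fun z => ⟨Φ z.1, hΦ.mapsTo z.2⟩ with hF
    set G : c'.Pts → c.Pts := fun z => ⟨Ψ z.1, hΨ.mapsTo z.2⟩ with hG
    refine ⟨⟨⟨F, G, ?_, ?_⟩, ?_, ?_⟩⟩
    · intro z
      exact Code.Pts.ext (hΨΦ z.1 z.2)
    · intro z
      exact Code.Pts.ext (hΦΨ z.1 z.2)
    · intro z
      exact contMDiffAt_of_LD (Φ := Φ) (fun _ => rfl) z (hLD z.1 z.2)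
    · intro z
      exact contMDiffAt_of_LD (Φ := Ψ) (fun _ => rfl) z (hLD' z.1 z.2)
  · rintro ⟨D⟩
    have hF : ContMDiff 𝓘(ℝ, E) 𝓘(ℝ, E) ∞ (D : c.Pts → c'.Pts) := D.contMDiff_toFun
    have hG : ContMDiff 𝓘(ℝ, E) 𝓘(ℝ, E) ∞ (D.symm : c'.Pts → c.Pts) := D.symm.contMDiff_toFun
    refine ⟨extP D, ⟨?_, ?_, ?_⟩, ?_⟩
    · intro z hz
      have := extP_val D ⟨z, hz⟩
      rw [this]
      exact (D ⟨z, hz⟩).2
    · intro z hz w hw h
      have h1 := extP_val D ⟨z, hz⟩
      have h2 := extP_val D ⟨w, hw⟩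
      have h3 : (D ⟨z, hz⟩).1 = (D ⟨w, hw⟩).1 := h1.symm.trans (h.trans h2)
      have h4 := D.injective (Code.Pts.ext h3)
      exact congrArg Code.Pts.val h4
    · intro w hw
      obtain ⟨z, hz⟩ := D.surjective ⟨w, hw⟩
      refine ⟨z.1, z.2, ?_⟩
      have hz' : D z = ⟨w, hw⟩ := hz
      rw [extP_val, hz']
    · intro z hz
      obtain ⟨y, hy⟩ := (c.exists_idx ⟨z, hz⟩).choose_spec
      obtain ⟨y', hy'⟩ := (c'.exists_idx (D ⟨z, hz⟩)).choose_spec
      have hDz : D.symm (D ⟨z, hz⟩) = ⟨z, hz⟩ := D.symm_apply_apply _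
      obtain ⟨a1, a2, a3⟩ := rp_smooth hF ⟨z, hz⟩ rfl rfl hy hy'
      have hi2 : (c.exists_idx ⟨z, hz⟩).choose = (c.exists_idx (D.symm (D ⟨z, hz⟩))).choose := by
        rw [hDz]
      have hy2 : ((c.exists_idx ⟨z, hz⟩).choose, y) ∈ (D.symm (D ⟨z, hz⟩)).1 := by
        rw [hDz]
        exact hy
      obtain ⟨b1, b2, b3⟩ := rp_smooth hG (D ⟨z, hz⟩) rfl hi2 hy' hy2
      set i := (c.exists_idx ⟨z, hz⟩).choose with hi
      set i' := (c'.exists_idx (D ⟨z, hz⟩)).choose with hi'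
      set u := rp (extP D) c i i' with hu
      set v := rp (extP D.symm) c' i' i with hv
      have hzy := (mem_iff hz _).1 hy
      have hzy' := (mem_iff (D ⟨z, hz⟩).2 _).1 hy'
      have hul : ∀ᶠ x in 𝓝 y, v (u x) = x := by
        have ht : Tendsto u (𝓝 y) (𝓝 y') := by
          have := a2.self.continuousAt.tendsto
          rwa [a3] at this
        filter_upwards [a1, ht.eventually b1, (c.isOpen i i).mem_nhds hzy.1] with x x1 x2 x3
        have h1 : extP D (cls c i x) = (D ⟨cls c i x, cls_mem_M x3⟩).1 :=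
          extP_val D ⟨cls c i x, cls_mem_M x3⟩
        have h2 : extP D.symm (cls c' i' (u x)) = cls c i x := by
          rw [← x1.1, h1, extP_val]
          have : D.symm (D ⟨cls c i x, cls_mem_M x3⟩) = ⟨cls c i x, cls_mem_M x3⟩ :=
            D.symm_apply_apply _
          rw [this]
        show rp (extP D.symm) c' i' i (u x) = x
        exact rp_eq x3 h2
      have hvl : ∀ᶠ x in 𝓝 (u y), u (v x) = x := by
        rw [a3]
        have ht : Tendsto v (𝓝 y') (𝓝 y) := by
          have := b2.self.continuousAt.tendsto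
          rwa [b3] at this
        filter_upwards [b1, ht.eventually a1, (c'.isOpen i' i').mem_nhds hzy'.1] with x x1 x2 x3
        have h1 : extP D.symm (cls c' i' x) = (D.symm ⟨cls c' i' x, cls_mem_M x3⟩).1 :=
          extP_val D.symm ⟨cls c' i' x, cls_mem_M x3⟩
        have h2 : extP D (cls c i (v x)) = cls c' i' x := by
          rw [← x1.1, h1, extP_val]
          have : D (D.symm ⟨cls c' i' x, cls_mem_M x3⟩) = ⟨cls c' i' x, cls_mem_M x3⟩ :=
            D.apply_symm_apply _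
          rw [this]
        show rp (extP D) c i i' (v x) = x
        exact rp_eq x3 h2
      have hinv := (isInvertible_of_inv a2 (by rw [a3]; exact b2) hul hvl).1
      exact ⟨hz, (i, y), hy, i', ⟨hzy.1, a1, a2, hinv⟩⟩

end Pool.Agent.TH227.CM
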