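import Pool.Agent.TH227.CM.Diff

/-!
Perturbations of the identity of the model space.
-/

open Set Filter Topology
open scoped ContDiff

namespace Pool.Agent.TH227.CM

variable {κ : Type} {E : Type} [NormedAddCommGroup E] [NormedSpace ℝ E] [FiniteDimensional ℝ E]
variable {l : Filter κ}

local instance : CompleteSpace E := by
  have : ProperSpace E := FiniteDimensional.proper_real E
  infer_instance

/-- Diffeomorphism `T` of `E` with inverse `T'`, the identity off `S`. -/
structure DE (S : Set E) (T T' : E → E) : Prop where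
  sm : ContDiff ℝ ∞ T
  sm' : ContDiff ℝ ∞ T'
  left : ∀ y, T' (T y) = y
  right : ∀ y, T (T' y) = y
  off : ∀ y, y ∉ S → T y = y

omit [FiniteDimensional ℝ E] in
theorem DE.off' {S : Set E} {T T' : E → E} (h : DE S T T') : ∀ y, y ∉ S → T' y = y := by
  intro y hy
  have h1 := h.left y
  rwa [h.off y hy] at h1

omit [FiniteDimensional ℝ E] in
theorem DE.symm {S : Set E} {T T' : E → E} (h : DE S T T') : DE S T' T :=
  ⟨h.sm', h.sm, h.right, h.left, h.off'⟩

omit [FiniteDimensional ℝ E] in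
theorem DE.comp {S : Set E} {T T' R R' : E → E} (h : DE S T T') (hR : DE S R R') :
    DE S (T ∘ R) (R' ∘ T') := by
  refine ⟨h.sm.comp hR.sm, hR.sm'.comp h.sm', ?_, ?_, ?_⟩
  · intro y
    show R' (T' (T (R y))) = y
    rw [h.left, hR.left]
  · intro y
    show T (R (R' (T' y))) = y
    rw [hR.right, h.right]
  · intro y hy
    show T (R y) = y
    rw [hR.off y hy, h.off y hy]

/-- A smooth map which is close to the identity in the first derivative is a diffeomorphism. -/
theorem diffeo_of_close {F : E → E} (hF : ContDiff ℝ ∞ F)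
    (hd : ∀ y, ‖fderiv ℝ F y - ContinuousLinearMap.id ℝ E‖ ≤ 1 / 2) :
    ∃ G : E → E, ContDiff ℝ ∞ G ∧ (∀ y, G (F y) = y) ∧ (∀ y, F (G y) = y) ∧
      ∀ y, ‖fderiv ℝ G (F y) - ContinuousLinearMap.id ℝ E‖ ≤
        2 * ‖fderiv ℝ F y - ContinuousLinearMap.id ℝ E‖ := by
  have hdiff : ∀ y, DifferentiableAt ℝ F y := fun y => (hF.differentiable (by simp)) y
  have hg : ∀ x y : E, ‖(F y - y) - (F x - x)‖ ≤ 1 / 2 * ‖y - x‖ := by
    intro x y
    have h1 : ∀ z ∈ (univ : Set E), DifferentiableAt ℝ (fun z => F z - z) z := fun z _ =>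
      (hdiff z).sub differentiableAt_id
    have h2 : ∀ z ∈ (univ : Set E), ‖fderiv ℝ (fun z => F z - z) z‖ ≤ 1 / 2 := by
      intro z _
      have h3 : fderiv ℝ (fun z => F z - z) z = fderiv ℝ F z - ContinuousLinearMap.id ℝ E := by
        rw [fderiv_fun_sub (hdiff z) differentiableAt_fun_id]
        rw [fderiv_fun_id]
      rw [h3]
      exact hd z
    exact convex_univ.norm_image_sub_le_of_norm_fderiv_le h1 h2 (mem_univ x) (mem_univ y)
  have happ : ApproximatesLinearOn F ((ContinuousLinearEquiv.refl ℝ E : E ≃L[ℝ] E) : E →L[ℝ] E)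
      univ (1 / 2 : NNReal) := by
    intro x _ y _
    have h1 := hg y x
    have h2 : F x - F y - ((ContinuousLinearEquiv.refl ℝ E : E ≃L[ℝ] E) : E →L[ℝ] E) (x - y) =
        (F x - x) - (F y - y) := by
      simp only [ContinuousLinearEquiv.coe_coe, ContinuousLinearEquiv.coe_refl', id]
      abel
    rw [h2]
    have h3 : ((1 / 2 : NNReal) : ℝ) = 1 / 2 := by norm_num
    rw [h3]
    exact h1
  have hc : Subsingleton E ∨ (1 / 2 : NNReal) <
      ‖((ContinuousLinearEquiv.refl ℝ E).symm : E →L[ℝ] E)‖₊⁻¹ := by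
    rcases subsingleton_or_nontrivial E with hs | hs
    · exact Or.inl hs
    · right
      have h1 : ‖((ContinuousLinearEquiv.refl ℝ E).symm : E →L[ℝ] E)‖₊ = 1 := by
        have h2 : ((ContinuousLinearEquiv.refl ℝ E).symm : E →L[ℝ] E) =
            ContinuousLinearMap.id ℝ E := rfl
        rw [h2]
        apply NNReal.eq
        rw [coe_nnnorm, ContinuousLinearMap.norm_id]
        rfl
      rw [h1, inv_one, ← NNReal.coe_lt_coe]
      norm_num
  set H : E ≃ₜ E := happ.toHomeomorph F hc with hH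
  have hHF : ∀ y, H y = F y := fun y => rfl
  have hinv : ∀ y, (fderiv ℝ F y).IsInvertible := by
    intro y
    have h1 : IsUnit (1 - (1 - fderiv ℝ F y) : E →L[ℝ] E) := by
      have h2 : ‖(1 - fderiv ℝ F y : E →L[ℝ] E)‖ < 1 := by
        have h3 := hd y
        rw [norm_sub_rev] at h3
        have h4 : (1 : E →L[ℝ] E) = ContinuousLinearMap.id ℝ E := rfl
        rw [h4]
        linarith
      exact isUnit_one_sub_of_norm_lt_one h2
    rw [sub_sub_cancel] at h1
    obtain ⟨A, hA⟩ := h1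
    exact ⟨ContinuousLinearEquiv.unitsEquiv ℝ E A, hA⟩
  have hSN : ∀ y, SN F y := fun y => Filter.Eventually.of_forall fun z => hF.contDiffAt
  have hsymm : ∀ y, SN H.symm (F y) := by
    intro y
    obtain ⟨v, v1, v2, v3, v4, v5⟩ := exists_local_inverse (hSN y) (hinv y)
    refine v1.congr ?_
    filter_upwards [v4] with z hz
    apply H.injective
    rw [H.apply_symm_apply, hHF]
    exact hz
  have hsm : ContDiff ℝ ∞ H.symm := by
    rw [contDiff_iff_contDiffAt]
    intro y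
    have h1 := (hsymm (H.symm y)).self
    rw [← hHF, H.apply_symm_apply] at h1
    exact h1
  refine ⟨H.symm, hsm, fun y => H.symm_apply_apply y, fun y => H.apply_symm_apply y, ?_⟩
  intro y
  have h1 : (fderiv ℝ H.symm (F y)).comp (fderiv ℝ F y) = ContinuousLinearMap.id ℝ E := by
    rw [← fderiv_comp y (hsm.differentiable (by simp) _) (hdiff y)]
    have h2 : (H.symm ∘ F) = id := by
      funext z
      exact H.symm_apply_apply z
    rw [h2, fderiv_id]
  set A := fderiv ℝ F y with hA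
  set B := fderiv ℝ H.symm (F y) with hB
  have h2 : B - ContinuousLinearMap.id ℝ E = B.comp (ContinuousLinearMap.id ℝ E - A) := by
    rw [ContinuousLinearMap.comp_sub, h1, ContinuousLinearMap.comp_id]
  have h3 : ‖B - ContinuousLinearMap.id ℝ E‖ ≤ ‖B‖ * ‖A - ContinuousLinearMap.id ℝ E‖ := by
    rw [h2, norm_sub_rev A]
    exact ContinuousLinearMap.opNorm_comp_le _ _
  have h4 : ‖B‖ ≤ 2 := by
    have h5 : ‖B‖ ≤ ‖B - ContinuousLinearMap.id ℝ E‖ + ‖ContinuousLinearMap.id ℝ E‖ := by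
      have := norm_add_le (B - ContinuousLinearMap.id ℝ E) (ContinuousLinearMap.id ℝ E)
      simpa using this
    have h6 : ‖ContinuousLinearMap.id ℝ E‖ ≤ 1 := ContinuousLinearMap.norm_id_le
    have h7 := hd y
    have h8 : ‖B‖ * ‖A - ContinuousLinearMap.id ℝ E‖ ≤ ‖B‖ * (1 / 2) :=
      mul_le_mul_of_nonneg_left h7 (norm_nonneg _)
    linarith
  exact h3.trans (mul_le_mul_of_nonneg_right h4 (norm_nonneg _))

theorem near_id {S : Set E} (hS : IsCompact S) {χ : E → ℝ} (hχ : ContDiff ℝ ∞ χ)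
    (hχS : ∀ y, y ∉ S → χ y = 0) {f : κ → E → E} (hf : ∀ y ∈ S, CS l f id y) :
    ∃ G : κ → E → E, (∀ y, CS l (fun k y => y + χ y • (f k y - y)) id y) ∧
      (∀ y, CS l G id y) ∧
      ∀ᶠ k in l, DE S (fun y => y + χ y • (f k y - y)) (G k) := by
  set F : κ → E → E := fun k y => y + χ y • (f k y - y) with hFdef
  have hχSN : ∀ y, SN χ y := fun y => Filter.Eventually.of_forall fun z => hχ.contDiffAt
  have hoff : ∀ y, y ∉ S → ∀ k, F k =ᶠ[𝓝 y] id := by
    intro y hy k
    filter_upwards [hS.isClosed.isOpen_compl.mem_nhds hy] with z hz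
    simp [hFdef, hχS z hz]
  have hF : ∀ y, CS l F id y := by
    intro y
    by_cases hy : y ∈ S
    · have h1 := CS.add (CS_id (l := l) (x := y))
        ((CS_const (l := l) (hχSN y)).smul ((hf y hy).sub (CS_id (l := l) (x := y))))
      refine h1.congr ?_ ?_
      · exact Filter.Eventually.of_forall fun p => rfl
      · exact Filter.Eventually.of_forall fun p => by simp
    · refine (CS_id (l := l) (x := y)).congr ?_ (Filter.Eventually.of_forall fun _ => rfl)
      filter_upwards [ev_snd (l := l) (hS.isClosed.isOpen_compl.mem_nhds hy)] with p hp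
      show id p.2 = F p.1 p.2
      simp [hFdef, hχS p.2 hp]
  -- uniform closeness
  have hunif : ∀ ε > 0, ∀ᶠ k in l, ∀ y, ContDiffAt ℝ ∞ (F k) y ∧ ‖F k y - y‖ ≤ ε ∧
      ‖fderiv ℝ (F k) y - ContinuousLinearMap.id ℝ E‖ ≤ ε := by
    intro ε hε
    have h1 : ∀ᶠ k in l, ∀ y ∈ S, ∀ᶠ y' in 𝓝 y, ContDiffAt ℝ ∞ (F k) y' ∧ ‖F k y' - y'‖ ≤ ε ∧
      ‖fderiv ℝ (F k) y' - ContinuousLinearMap.id ℝ E‖ ≤ ε := by
      refine compact_ev (P := fun p => ContDiffAt ℝ ∞ (F p.1) p.2 ∧ ‖F p.1 p.2 - p.2‖ ≤ ε ∧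
        ‖fderiv ℝ (F p.1) p.2 - ContinuousLinearMap.id ℝ E‖ ≤ ε) hS ?_
      intro y _
      have h2 : Tendsto (fun p : κ × E => ‖F p.1 p.2 - p.2‖) (l ×ˢ 𝓝 y) (𝓝 0) := by
        have h3 : Tendsto (fun p : κ × E => p.2) (l ×ˢ 𝓝 y) (𝓝 y) := tendsto_snd
        have h4 := ((hF y).val.sub h3).norm
        simpa using h4
      have h5 : Tendsto (fun p : κ × E => ‖fderiv ℝ (F p.1) p.2 - ContinuousLinearMap.id ℝ E‖)
          (l ×ˢ 𝓝 y) (𝓝 0) := by
        have h4 := ((hF y).der.sub (tendsto_const_nhds (x := ContinuousLinearMap.id ℝ E))).norm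
        simpa using h4
      filter_upwards [(hF y).1, h2.eventually (ge_mem_nhds hε), h5.eventually (ge_mem_nhds hε)]
        with p a1 a2 a3
      exact ⟨a1, a2, a3⟩
    filter_upwards [h1] with k hk y
    by_cases hy : y ∈ S
    · exact (hk y hy).self_of_nhds
    · have h2 := hoff y hy k
      refine ⟨contDiffAt_id.congr_of_eventuallyEq h2, ?_, ?_⟩
      · rw [h2.self_of_nhds]
        simp [hε.le]
      · rw [h2.fderiv_eq, fderiv_id]
        simp [hε.le]
  classical
  -- choice of the inverse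
  have hex : ∀ k, ∃ G : E → E, (ContDiff ℝ ∞ (F k) ∧ ∀ y, ‖fderiv ℝ (F k) y -
      ContinuousLinearMap.id ℝ E‖ ≤ 1 / 2) → ContDiff ℝ ∞ G ∧ (∀ y, G (F k y) = y) ∧
      (∀ y, F k (G y) = y) ∧ ∀ y, ‖fderiv ℝ G (F k y) - ContinuousLinearMap.id ℝ E‖ ≤
        2 * ‖fderiv ℝ (F k) y - ContinuousLinearMap.id ℝ E‖ := by
    intro k
    by_cases h : ContDiff ℝ ∞ (F k) ∧ ∀ y, ‖fderiv ℝ (F k) y -
        ContinuousLinearMap.id ℝ E‖ ≤ 1 / 2
    · obtain ⟨G, hG⟩ := diffeo_of_close h.1 h.2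
      exact ⟨G, fun _ => hG⟩
    · exact ⟨id, fun h' => absurd h' h⟩
  choose G hG using hex
  have hgood : ∀ᶠ k in l, ContDiff ℝ ∞ (F k) ∧ ∀ y, ‖fderiv ℝ (F k) y -
      ContinuousLinearMap.id ℝ E‖ ≤ 1 / 2 := by
    filter_upwards [hunif (1 / 2) (by norm_num)] with k hk
    exact ⟨contDiff_iff_contDiffAt.2 fun y => (hk y).1, fun y => (hk y).2.2⟩
  refine ⟨G, hF, ?_, ?_⟩
  · intro y
    refine CS.mk' ?_ (Filter.Eventually.of_forall fun z => contDiffAt_id) ?_ ?_
    · filter_upwards [ev_fst hgood] with p hp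
      exact (hG p.1 hp).1.contDiffAt
    · rw [Metric.tendsto_nhds]
      intro ε hε
      filter_upwards [ev_fst hgood, ev_fst (hunif (ε / 2) (half_pos hε)),
        ev_snd (Metric.ball_mem_nhds y (half_pos hε))] with p hp1 hp2 hp3
      have h1 := (hp2 (G p.1 p.2)).2.1
      rw [(hG p.1 hp1).2.2.1] at h1
      have h2 : dist p.2 y < ε / 2 := hp3
      have h3 := dist_triangle (G p.1 p.2) p.2 y
      rw [dist_comm (G p.1 p.2) p.2, dist_eq_norm p.2 (G p.1 p.2)] at h3
      show dist (G p.1 p.2) y < ε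
      linarith
    · rw [fderiv_id, Metric.tendsto_nhds]
      intro ε hε
      filter_upwards [ev_fst hgood, ev_fst (hunif (ε / 4) (by positivity))] with p hp1 hp2
      have h1 := (hG p.1 hp1).2.2.2 (G p.1 p.2)
      rw [(hG p.1 hp1).2.2.1] at h1
      have h2 := (hp2 (G p.1 p.2)).2.2
      rw [dist_eq_norm]
      linarith
  · filter_upwards [hgood] with k hk
    have h1 := hG k hk
    refine ⟨hk.1, h1.1, h1.2.1, h1.2.2.1, ?_⟩
    intro y hy
    simp [hχS y hy]

end Pool.Agent.TH227.CM
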